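import Pool.Agent.H.MP_8f7167_an.Main

namespace Pool.Agent.Results.MP_8f7167_an.NotGamma

open Finset Filter Topology Pool.Agent.H.MP_8f7167_an

theorem result : ∃ (t : ℕ → ℕ → ℝ) (E : Type) (_ : NormedAddCommGroup E) (_ : NormedSpace ℝ E)
    (_ : CompleteSpace E) (x : ℕ → E) (f : ℕ → E →L[ℝ] ℝ),
    (∀ n, Summable fun m => |t n m|) ∧ (∃ C, ∀ n, ∑' m, |t n m| ≤ C) ∧
    (∀ m, Tendsto (fun n => t n m) atTop (𝓝 0)) ∧ Tendsto (fun n => ∑' m, t n m) atTop (𝓝 1) ∧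
    (∀ i j, f i (x j) = if i = j then 1 else 0) ∧
    (∀ y : E, ∃! α : ℕ → ℝ, ∃ σ : ℕ → E, (∀ n, Tendsto (fun m => ∑ j ∈ range m,
      t n j • ∑ i ∈ range (j + 1), α i • x i) atTop (𝓝 (σ n))) ∧ Tendsto σ atTop (𝓝 y)) ∧
    ∃ (y : E) (n : ℕ), ¬ ∃ z : E, Tendsto (fun m => ∑ i ∈ range m,
      ((∑' j, t n (j + i)) * f i y) • x i) atTop (𝓝 z) := by
  refine ⟨t, _, inferInstance, inferInstance, inferInstance, x, f, fun n => (t_sum n).summable.abs,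
    ⟨1, fun n => ?_⟩, fun m => tendsto_const_nhds.congr' ?_, ?_, bi,
    fun y => ⟨fun i => f i y, exist y, fun α ⟨σ, h1, h2⟩ => uniq y α σ h1 h2⟩,
    y0, 0, fun ⟨z, hz⟩ => diverge z hz⟩
  · simp only [abs_of_nonneg (t_nonneg _ _), (t_sum n).tsum_eq, le_refl]
  · filter_upwards [eventually_gt_atTop m] with n hn
    exact (t_zero hn.le).symm
  · simp only [(t_sum _).tsum_eq, tendsto_const_nhds]

end Pool.Agent.Results.MP_8f7167_an.NotGamma
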